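import Pool.Agent.N242.NT.Stm

/-!
# Project NT (helper242), part PER: perturbation by the Hilbert norm
-/

set_option autoImplicit false

open Metric Set Filter Topology

namespace Pool.Agent.N187.NT

open Pool.Agent.N242.NT

universe u

lemma sqrt_tri {a b a' b' p q : ℝ} (hp0 : 0 ≤ p) (hq0 : 0 ≤ q) (hp : p ≤ a + a') (hq : q ≤ b + b') :
    Real.sqrt (p ^ 2 + q ^ 2) ≤ Real.sqrt (a ^ 2 + b ^ 2) + Real.sqrt (a' ^ 2 + b' ^ 2) := by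
  have h1 : 0 ≤ a ^ 2 + b ^ 2 := by positivity
  have h2 : 0 ≤ a' ^ 2 + b' ^ 2 := by positivity
  have h3 : a * a' + b * b' ≤ Real.sqrt (a ^ 2 + b ^ 2) * Real.sqrt (a' ^ 2 + b' ^ 2) := by
    rw [← Real.sqrt_mul h1]
    apply Real.le_sqrt_of_sq_le
    nlinarith [sq_nonneg (a * b' - b * a')]
  apply Real.sqrt_le_iff.2
  refine ⟨by positivity, ?_⟩
  have e1 := Real.sq_sqrt h1
  have e2 := Real.sq_sqrt h2
  have h4 : p ^ 2 ≤ (a + a') ^ 2 := pow_le_pow_left₀ hp0 hp 2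
  have h5 : q ^ 2 ≤ (b + b') ^ 2 := pow_le_pow_left₀ hq0 hq 2
  nlinarith

section

variable {H : Type u} [NormedAddCommGroup H] [InnerProductSpace ℝ H]

/-- the new seminorm -/
noncomputable def MM (N : Seminorm ℝ H) (ε : ℝ) (hε : 0 < ε) : Seminorm ℝ H :=
  Seminorm.of (fun x => Real.sqrt (N x ^ 2 + (ε * ‖x‖) ^ 2))
    (by
      intro x y
      apply sqrt_tri (apply_nonneg N _) (by positivity) (map_add_le_add N x y)
      rw [← mul_add]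
      exact mul_le_mul_of_nonneg_left (norm_add_le x y) hε.le)
    (by
      intro a x
      rw [map_smul_eq_mul, norm_smul]
      have : (‖a‖ * N x) ^ 2 + (ε * (‖a‖ * ‖x‖)) ^ 2 = ‖a‖ ^ 2 * (N x ^ 2 + (ε * ‖x‖) ^ 2) := by
        ring
      rw [this, Real.sqrt_mul (sq_nonneg _), Real.sqrt_sq (norm_nonneg a)])

lemma MM_sq (N : Seminorm ℝ H) (ε : ℝ) (hε : 0 < ε) (x : H) :
    MM N ε hε x ^ 2 = N x ^ 2 + ε ^ 2 * ‖x‖ ^ 2 := by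
  change Real.sqrt (N x ^ 2 + (ε * ‖x‖) ^ 2) ^ 2 = _
  rw [Real.sq_sqrt (by positivity), mul_pow]

end

theorem t_PER : S_PER.{u} := by
  intro H _ _ N C ε hN hε
  refine ⟨MM N ε hε, MM_sq N ε hε, ?_⟩
  set D : ℝ := C ^ 2 + ε ^ 2 with hD
  have hε2 : 0 < ε ^ 2 := by positivity
  have hD0 : 0 < D := by positivity
  set η : ℝ := min (1 / 2) (ε ^ 2 / (40 * D)) with hη
  have hη0 : 0 < η := lt_min (by norm_num) (by positivity)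
  have hη1 : η ≤ 1 / 2 := min_le_left _ _
  have hη2 : 40 * D * η ≤ ε ^ 2 := by
    have h1 : η ≤ ε ^ 2 / (40 * D) := min_le_right _ _
    rw [le_div_iff₀ (by positivity)] at h1
    linarith
  refine ⟨η, hη0, fun u hu => ?_⟩
  by_contra hcon
  push Not at hcon
  set M := MM N ε hε with hM
  have hsq := MM_sq N ε hε
  rw [← hM] at hsq
  -- sums are small
  have hsmall : ∀ i j, i ≠ j → ε ^ 2 * ‖u i + u j‖ ^ 2 ≤ 4 * η := by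
    intro i j hij
    have h1 := hcon i j hij
    have h2 : (2 - η) ^ 2 ≤ M (u i - u j) ^ 2 := pow_le_pow_left₀ (by linarith) h1 2
    have h3 : M (u i - u j) ^ 2 = N (u i - u j) ^ 2 + ε ^ 2 * ‖u i - u j‖ ^ 2 := hsq _
    have h4 : N (u i - u j) ^ 2 ≤ 2 * N (u i) ^ 2 + 2 * N (u j) ^ 2 := by
      have h5 : N (u i - u j) ≤ N (u i) + N (u j) := map_sub_le_add N _ _
      have h6 : N (u i - u j) ^ 2 ≤ (N (u i) + N (u j)) ^ 2 :=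
        pow_le_pow_left₀ (apply_nonneg N _) h5 2
      nlinarith [sq_nonneg (N (u i) - N (u j))]
    have h7 := parallelogram_law_with_norm ℝ (u i) (u j)
    have h8 : M (u i) ^ 2 ≤ 1 := pow_le_one₀ (apply_nonneg M _) (hu i)
    have h9 : M (u j) ^ 2 ≤ 1 := pow_le_one₀ (apply_nonneg M _) (hu j)
    have h10 : M (u i) ^ 2 = N (u i) ^ 2 + ε ^ 2 * ‖u i‖ ^ 2 := hsq _
    have h11 : M (u j) ^ 2 = N (u j) ^ 2 + ε ^ 2 * ‖u j‖ ^ 2 := hsq _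
    have h12 : ε ^ 2 * ‖u i - u j‖ ^ 2 =
        2 * (ε ^ 2 * ‖u i‖ ^ 2) + 2 * (ε ^ 2 * ‖u j‖ ^ 2) - ε ^ 2 * ‖u i + u j‖ ^ 2 := by
      linear_combination ε ^ 2 * h7
    nlinarith [sq_nonneg η]
  have h01 := hsmall 0 1 (by norm_num)
  have h02 := hsmall 0 2 (by norm_num)
  have h12 := hsmall 1 2 (by norm_num)
  have hu0 : ε ^ 2 * ‖u 0‖ ^ 2 ≤ 9 * η := by
    have e : (2 : ℝ) • u 0 = (u 0 + u 1) + (u 0 + u 2) - (u 1 + u 2) := by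
      rw [two_smul]
      abel
    have h1 : 2 * ‖u 0‖ ≤ ‖u 0 + u 1‖ + ‖u 0 + u 2‖ + ‖u 1 + u 2‖ := by
      calc 2 * ‖u 0‖ = ‖(2 : ℝ) • u 0‖ := by
            rw [norm_smul, Real.norm_eq_abs, abs_of_pos (by norm_num : (0 : ℝ) < 2)]
        _ = ‖(u 0 + u 1) + (u 0 + u 2) - (u 1 + u 2)‖ := by rw [e]
        _ ≤ ‖(u 0 + u 1) + (u 0 + u 2)‖ + ‖u 1 + u 2‖ := norm_sub_le _ _
        _ ≤ _ := by
            have := norm_add_le (u 0 + u 1) (u 0 + u 2)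
            linarith
    have h2 : (2 * ‖u 0‖) ^ 2 ≤ (‖u 0 + u 1‖ + ‖u 0 + u 2‖ + ‖u 1 + u 2‖) ^ 2 :=
      pow_le_pow_left₀ (by positivity) h1 2
    have h3 : (‖u 0 + u 1‖ + ‖u 0 + u 2‖ + ‖u 1 + u 2‖) ^ 2 ≤
        3 * (‖u 0 + u 1‖ ^ 2 + ‖u 0 + u 2‖ ^ 2 + ‖u 1 + u 2‖ ^ 2) := by
      nlinarith [sq_nonneg (‖u 0 + u 1‖ - ‖u 0 + u 2‖), sq_nonneg (‖u 0 + u 1‖ - ‖u 1 + u 2‖),
        sq_nonneg (‖u 0 + u 2‖ - ‖u 1 + u 2‖)]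
    have h4 : 4 * ‖u 0‖ ^ 2 ≤ 3 * (‖u 0 + u 1‖ ^ 2 + ‖u 0 + u 2‖ ^ 2 + ‖u 1 + u 2‖ ^ 2) := by
      linarith [h2, h3, (by ring : (2 * ‖u 0‖) ^ 2 = 4 * ‖u 0‖ ^ 2)]
    have h5 := mul_le_mul_of_nonneg_left h4 hε2.le
    linarith
  have hM0 : M (u 0) ^ 2 ≤ D * ‖u 0‖ ^ 2 := by
    rw [hsq, hD]
    have h1 : N (u 0) ^ 2 ≤ (C * ‖u 0‖) ^ 2 := pow_le_pow_left₀ (apply_nonneg N _) (hN _) 2
    linarith [(by ring : (C * ‖u 0‖) ^ 2 = C ^ 2 * ‖u 0‖ ^ 2)]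
  have hlow : 1 / 2 ≤ M (u 0) := by
    have h1 := hcon 0 1 (by norm_num)
    have h2 : M (u 0 - u 1) ≤ M (u 0) + M (u 1) := map_sub_le_add M _ _
    have h3 := hu 1
    linarith
  have hlow2 : 1 / 4 ≤ M (u 0) ^ 2 := by nlinarith
  -- contradiction
  have h6 : ε ^ 2 * (1 / 4) ≤ D * (9 * η) := by
    calc ε ^ 2 * (1 / 4) ≤ ε ^ 2 * M (u 0) ^ 2 := mul_le_mul_of_nonneg_left hlow2 hε2.le
      _ ≤ ε ^ 2 * (D * ‖u 0‖ ^ 2) := mul_le_mul_of_nonneg_left hM0 hε2.le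
      _ = D * (ε ^ 2 * ‖u 0‖ ^ 2) := by ring
      _ ≤ D * (9 * η) := mul_le_mul_of_nonneg_left hu0 hD0.le
  have h7 : 0 < D * η := by positivity
  linarith

end Pool.Agent.N187.NT
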